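import Pool.Agent.Helper39.HR.Stmts

/-!
# Hereditary independence ratio 1/3: numbers (module MAIN)
-/

namespace Pool.Agent.Helper9.HR

open Finset
open scoped Classical
open Pool.Agent.Helper39.HR

noncomputable section

theorem ad_sum {V : Type} [Fintype V] (G : SimpleGraph V) [DecidableRel G.Adj] (x : V) :
    ∑ y, ad G x y = (G.degree x : ℝ) := by
  have h : ∀ y, ad G x y = if y ∈ G.neighborFinset x then (1 : ℝ) else 0 := by
    intro y
    unfold ad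
    by_cases hy : G.Adj x y
    · simp [hy]
    · simp [hy]
  simp only [h]
  rw [← SimpleGraph.card_neighborFinset_eq_degree, ← Finset.sum_filter]
  simp only [sum_const, nsmul_eq_mul, mul_one]
  congr 2
  ext y
  simp

/-- the numbers: for `x` large and `J = ⌊a log x⌋` all conditions hold -/
theorem numbers (c C : ℝ) (hc : 0 < c) (hc1 : c < 1) :
    ∃ ε X : ℝ, 0 < ε ∧ 1 ≤ X ∧ ∀ x : ℝ, X ≤ x → ∃ J M : ℕ,
      C * x ^ 4 ≤ (((1 - c) / 2) ^ J * x) ^ 5 ∧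
      3 * (((1 - c) / 2) ^ J * x) ≤ M ∧
      ((2 ^ J : ℕ) : ℝ) * Real.exp (-(((1 - c) / 2) ^ J * x)) * (6 * x ^ 2) ≤ 1 ∧
      (((2 ^ J * (M + 1) : ℕ)) : ℝ) ≤ x ^ (1 - ε) := by
  set θ : ℝ := (1 - c) / 2 with hθ
  have hθ0 : 0 < θ := by rw [hθ]; linarith
  have hθ1 : θ < 1 := by rw [hθ]; linarith
  have hlθ : Real.log θ < 0 := Real.log_neg hθ0 hθ1
  have hl1c : Real.log (1 - c) < 0 := Real.log_neg (by linarith) (by linarith)
  set a : ℝ := (1 / 10) / (-Real.log θ) with ha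
  have ha0 : 0 < a := by
    rw [ha]; apply div_pos (by norm_num) (by linarith)
  have haθ : a * Real.log θ = -(1 / 10) := by
    have hne : Real.log θ ≠ 0 := hlθ.ne
    rw [ha]; field_simp
  have hlogθ : Real.log θ = Real.log (1 - c) - Real.log 2 := by
    rw [hθ, Real.log_div (by linarith) (by norm_num)]
  have hl2 : 0 < Real.log 2 := Real.log_pos (by norm_num)
  have ha2 : a * Real.log 2 ≤ 1 / 10 := by
    have : a * Real.log 2 = a * Real.log (1 - c) - a * Real.log θ := by rw [hlogθ]; ring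
    rw [this, haθ]
    have : a * Real.log (1 - c) < 0 := mul_neg_of_pos_of_neg ha0 hl1c
    linarith
  set ε : ℝ := -(a * Real.log (1 - c)) / 2 with hε
  have hε0 : 0 < ε := by
    have : a * Real.log (1 - c) < 0 := mul_neg_of_pos_of_neg ha0 hl1c
    rw [hε]; linarith
  have hε1 : 2 * ε ≤ 1 / 10 := by
    have h1 : a * Real.log (1 - c) = a * Real.log θ + a * Real.log 2 := by rw [hlogθ]; ring
    have h2 : 0 < a * Real.log 2 := mul_pos ha0 hl2
    rw [hε]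
    rw [h1, haθ]
    linarith
  set B : ℝ := 3 / (1 - c) + 2 with hB
  have hB0 : 0 < B := by
    have : 0 < 3 / (1 - c) := div_pos (by norm_num) (by linarith)
    rw [hB]; linarith
  refine ⟨ε, max (max 1 (C ^ 2)) (max (30240 ^ 2) (B ^ (1 / ε))), hε0,
    le_trans (le_max_left _ _) (le_max_left _ _), ?_⟩
  intro x hx
  have hx1 : 1 ≤ x := le_trans (le_trans (le_max_left _ _) (le_max_left _ _)) hx
  have hxC : C ^ 2 ≤ x := le_trans (le_trans (le_max_right _ _) (le_max_left _ _)) hx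
  have hx3 : 30240 ^ 2 ≤ x := le_trans (le_trans (le_max_left _ _) (le_max_right _ _)) hx
  have hxB : B ^ (1 / ε) ≤ x := le_trans (le_trans (le_max_right _ _) (le_max_right _ _)) hx
  have hx0 : 0 < x := by linarith
  have hlx : 0 ≤ Real.log x := Real.log_nonneg hx1
  set J : ℕ := ⌊a * Real.log x⌋₊ with hJ
  have hJ1 : (J : ℝ) ≤ a * Real.log x := Nat.floor_le (mul_nonneg ha0.le hlx)
  have hJ2 : a * Real.log x < J + 1 := Nat.lt_floor_add_one _
  -- powers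
  have hθJ : x ^ (-(1 / 10) : ℝ) ≤ θ ^ J := by
    have h1 : θ ^ J = Real.exp (Real.log θ * J) := by
      rw [← Real.rpow_natCast, Real.rpow_def_of_pos hθ0]
    rw [h1, Real.rpow_def_of_pos hx0]
    apply Real.exp_le_exp.mpr
    have h2 : Real.log θ * (a * Real.log x) ≤ Real.log θ * J :=
      mul_le_mul_of_nonpos_left hJ1 hlθ.le
    have h3 : Real.log θ * (a * Real.log x) = Real.log x * (-(1 / 10)) := by
      rw [← haθ]; ring
    linarith
  have h2J : (2 : ℝ) ^ J ≤ x ^ (1 / 10 : ℝ) := by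
    have h1 : (2 : ℝ) ^ J = Real.exp (Real.log 2 * J) := by
      rw [← Real.rpow_natCast, Real.rpow_def_of_pos (by norm_num)]
    rw [h1, Real.rpow_def_of_pos hx0]
    apply Real.exp_le_exp.mpr
    have h2 : Real.log 2 * J ≤ Real.log 2 * (a * Real.log x) :=
      mul_le_mul_of_nonneg_left hJ1 hl2.le
    have h3 : Real.log x * (a * Real.log 2) ≤ Real.log x * (1 / 10) :=
      mul_le_mul_of_nonneg_left ha2 hlx
    nlinarith
  have h1cJ : (1 - c) ^ J ≤ x ^ (-(2 * ε)) / (1 - c) := by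
    have h1c : 0 < 1 - c := by linarith
    rw [le_div_iff₀ h1c, ← pow_succ]
    have h1 : (1 - c) ^ (J + 1) = Real.exp (Real.log (1 - c) * ((J + 1 : ℕ) : ℝ)) := by
      rw [← Real.rpow_natCast, Real.rpow_def_of_pos h1c]
    rw [h1, Real.rpow_def_of_pos hx0]
    apply Real.exp_le_exp.mpr
    have h2 : Real.log (1 - c) * ((J + 1 : ℕ) : ℝ) ≤ Real.log (1 - c) * (a * Real.log x) := by
      apply mul_le_mul_of_nonpos_left _ hl1c.le
      push_cast; linarith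
    have h3 : Real.log (1 - c) * (a * Real.log x) = Real.log x * (-(2 * ε)) := by
      rw [hε]; ring
    linarith
  have hθJ0 : 0 < θ ^ J := pow_pos hθ0 J
  set R : ℝ := θ ^ J * x with hR
  have hR0 : 0 < R := mul_pos hθJ0 hx0
  have hR1 : x ^ (9 / 10 : ℝ) ≤ R := by
    have h1 : x ^ (9 / 10 : ℝ) = x ^ (-(1 / 10) : ℝ) * x := by
      rw [show (9 / 10 : ℝ) = -(1 / 10) + 1 by norm_num, Real.rpow_add hx0, Real.rpow_one]
    rw [h1]
    exact mul_le_mul_of_nonneg_right hθJ hx0.le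
  have hhalf : x ^ (1 / 2 : ℝ) ≤ x ^ (9 / 10 : ℝ) :=
    Real.rpow_le_rpow_of_exponent_le hx1 (by norm_num)
  refine ⟨J, ⌈3 * R⌉₊, ?_, Nat.le_ceil _, ?_, ?_⟩
  · -- C x^4 ≤ R^5
    have h1 : (x ^ (9 / 10 : ℝ)) ^ 5 ≤ R ^ 5 :=
      pow_le_pow_left₀ (Real.rpow_nonneg hx0.le _) hR1 5
    have h2 : (x ^ (9 / 10 : ℝ)) ^ 5 = x ^ (1 / 2 : ℝ) * x ^ 4 := by
      rw [← Real.rpow_natCast, ← Real.rpow_mul hx0.le, ← Real.rpow_natCast x 4,
        ← Real.rpow_add hx0]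
      norm_num
    have h3 : C ≤ x ^ (1 / 2 : ℝ) := by
      rw [← Real.sqrt_eq_rpow]
      exact Real.le_sqrt_of_sq_le hxC
    calc C * x ^ 4 ≤ x ^ (1 / 2 : ℝ) * x ^ 4 := mul_le_mul_of_nonneg_right h3 (by positivity)
      _ = (x ^ (9 / 10 : ℝ)) ^ 5 := h2.symm
      _ ≤ R ^ 5 := h1
  · -- exponential
    set y : ℝ := x ^ (1 / 2 : ℝ) with hy
    have hy2 : y ^ 2 = x := by
      rw [hy, ← Real.rpow_natCast, ← Real.rpow_mul hx0.le]; norm_num
    have hy0 : 0 ≤ y := Real.rpow_nonneg hx0.le _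
    have hy3 : 30240 ≤ y := by
      rw [hy, ← Real.sqrt_eq_rpow]
      exact Real.le_sqrt_of_sq_le hx3
    have h1 : y ^ 7 / (Nat.factorial 7 : ℝ) ≤ Real.exp y := Real.pow_div_factorial_le_exp y hy0 7
    have h7 : ((Nat.factorial 7 : ℕ) : ℝ) = 5040 := by norm_num [Nat.factorial]
    have h2 : 6 * x ^ 3 ≤ Real.exp R := by
      have h3 : y ≤ R := le_trans hhalf hR1
      have h4 : Real.exp y ≤ Real.exp R := Real.exp_le_exp.mpr h3
      have h5 : 6 * x ^ 3 ≤ y ^ 7 / 5040 := by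
        rw [le_div_iff₀ (by norm_num), ← hy2]
        have : y ^ 7 = y * y ^ 6 := by ring
        rw [this]
        have h6 : 0 ≤ y ^ 6 := by positivity
        nlinarith [mul_le_mul_of_nonneg_right hy3 h6]
      rw [h7] at h1
      linarith
    have h3 : ((2 ^ J : ℕ) : ℝ) ≤ x := by
      push_cast
      calc (2 : ℝ) ^ J ≤ x ^ (1 / 10 : ℝ) := h2J
        _ ≤ x ^ (1 : ℝ) := Real.rpow_le_rpow_of_exponent_le hx1 (by norm_num)
        _ = x := Real.rpow_one x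
    rw [Real.exp_neg]
    have he : 0 < Real.exp R := Real.exp_pos R
    have h4 : ((2 ^ J : ℕ) : ℝ) * (Real.exp R)⁻¹ * (6 * x ^ 2)
        = (((2 ^ J : ℕ) : ℝ) * (6 * x ^ 2)) / Real.exp R := by
      rw [div_eq_mul_inv]; ring
    rw [h4, div_le_one he]
    calc ((2 ^ J : ℕ) : ℝ) * (6 * x ^ 2) ≤ x * (6 * x ^ 2) :=
          mul_le_mul_of_nonneg_right h3 (by positivity)
      _ = 6 * x ^ 3 := by ring
      _ ≤ Real.exp R := h2
  · -- final count
    have h1 : ((⌈3 * R⌉₊ : ℕ) : ℝ) ≤ 3 * R + 1 :=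
      (Nat.ceil_lt_add_one (by positivity)).le
    have h2 : (((2 ^ J * (⌈3 * R⌉₊ + 1) : ℕ)) : ℝ) ≤ 2 ^ J * (3 * R + 2) := by
      push_cast
      apply mul_le_mul_of_nonneg_left _ (by positivity)
      linarith
    have h3 : (2 : ℝ) ^ J * (3 * R + 2) = 3 * (1 - c) ^ J * x + 2 * 2 ^ J := by
      have : (2 : ℝ) ^ J * θ ^ J = (1 - c) ^ J := by
        rw [← mul_pow, hθ]; congr 1; ring
      rw [hR]
      calc (2 : ℝ) ^ J * (3 * (θ ^ J * x) + 2) = 3 * ((2 : ℝ) ^ J * θ ^ J) * x + 2 * 2 ^ J := by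
            ring
        _ = _ := by rw [this]
    have hxe : x ^ (1 - 2 * ε) = x ^ (-(2 * ε)) * x := by
      rw [show (1 - 2 * ε : ℝ) = -(2 * ε) + 1 by ring, Real.rpow_add hx0, Real.rpow_one]
    have h4 : 3 * (1 - c) ^ J * x ≤ 3 / (1 - c) * x ^ (1 - 2 * ε) := by
      rw [hxe]
      calc 3 * (1 - c) ^ J * x ≤ 3 * (x ^ (-(2 * ε)) / (1 - c)) * x := by
            apply mul_le_mul_of_nonneg_right _ hx0.le
            linarith
        _ = 3 / (1 - c) * (x ^ (-(2 * ε)) * x) := by ring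
    have h5 : 2 * (2 : ℝ) ^ J ≤ 2 * x ^ (1 - 2 * ε) := by
      have : x ^ (1 / 10 : ℝ) ≤ x ^ (1 - 2 * ε) :=
        Real.rpow_le_rpow_of_exponent_le hx1 (by linarith)
      linarith
    have h6 : B * x ^ (1 - 2 * ε) ≤ x ^ (1 - ε) := by
      have h7 : x ^ (1 - ε) = x ^ ε * x ^ (1 - 2 * ε) := by
        rw [← Real.rpow_add hx0]; congr 1; ring
      rw [h7]
      apply mul_le_mul_of_nonneg_right _ (Real.rpow_nonneg hx0.le _)
      have h8 : (B ^ (1 / ε)) ^ ε ≤ x ^ ε :=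
        Real.rpow_le_rpow (Real.rpow_nonneg hB0.le _) hxB hε0.le
      rw [← Real.rpow_mul hB0.le] at h8
      rw [show (1 / ε * ε : ℝ) = 1 by field_simp, Real.rpow_one] at h8
      exact h8
    calc (((2 ^ J * (⌈3 * R⌉₊ + 1) : ℕ)) : ℝ) ≤ 2 ^ J * (3 * R + 2) := h2
      _ = 3 * (1 - c) ^ J * x + 2 * 2 ^ J := h3
      _ ≤ 3 / (1 - c) * x ^ (1 - 2 * ε) + 2 * x ^ (1 - 2 * ε) := by linarith
      _ = B * x ^ (1 - 2 * ε) := by rw [hB]; ring
      _ ≤ x ^ (1 - ε) := h6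

theorem main_of (hI : ST_ITER) (hR : ST_ROUND) : ST_MAIN := by
  obtain ⟨c, C, hc, hc1, _, hI⟩ := hI
  obtain ⟨ε, X, hε, hX1, hX⟩ := numbers c C hc hc1
  refine ⟨ε, hε, ⌈X⌉₊, ?_⟩
  intro V _ G _ hd hHer
  have hdX : X ≤ (G.maxDegree : ℝ) := by
    calc X ≤ (⌈X⌉₊ : ℝ) := Nat.le_ceil X
      _ ≤ (G.maxDegree : ℝ) := by exact_mod_cast hd
  obtain ⟨J, M, h1, h2, h3, h4⟩ := hX (G.maxDegree : ℝ) hdX
  have hd1 : (1 : ℝ) ≤ G.maxDegree := le_trans hX1 hdX
  have had : ∀ x, ∑ y, ad G x y ≤ (G.maxDegree : ℝ) := by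
    intro x
    rw [ad_sum]
    exact_mod_cast G.degree_le_maxDegree x
  obtain ⟨f, hf0, hf1, hfS⟩ := hI V G (G.maxDegree : ℝ) J hHer had hd1 h1
  have hR0 : (0 : ℝ) ≤ ((1 - c) / 2) ^ J * (G.maxDegree : ℝ) := by
    apply mul_nonneg
    · apply pow_nonneg; linarith
    · linarith
  have hcol := hR V G (2 ^ J) M (G.maxDegree : ℝ) (((1 - c) / 2) ^ J * (G.maxDegree : ℝ)) f
    had hd1 hR0 h2 h3 hf0 hf1 hfS
  exact hcol.mono (Nat.le_floor h4)

end

end Pool.Agent.Helper9.HR
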